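import Mathlib

set_option autoImplicit false

namespace Pool.Agent.KS6_69.AP

open MeasureTheory Set Filter Topology

lemma slice {μ : Measure ℝ} {W : Set ℝ} (hW : μ W ≠ 0) (φ : ℝ → ℝ) :
    ∃ k : ℤ, μ (W ∩ φ ⁻¹' Ico (k : ℝ) (k + 1)) ≠ 0 := by
  by_contra h
  push Not at h
  apply hW
  refine measure_mono_null (t := ⋃ k : ℤ, W ∩ φ ⁻¹' Ico (k : ℝ) (k + 1)) (fun x hx => ?_)
    (measure_iUnion_null h)
  exact mem_iUnion.2 ⟨⌊φ x⌋, hx, Int.floor_le _, Int.lt_floor_add_one _⟩

lemma pick {μ : Measure ℝ} [SFinite μ] {S T : Set ℝ} (hT : MeasurableSet T) (h0 : μ T ≠ 0)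
    (hTS : T ⊆ toMeasurable μ S) {P : ℝ → Prop} (hP : ∀ᵐ x ∂μ, P x) :
    ∃ x ∈ S, x ∈ T ∧ P x := by
  by_contra h
  push Not at h
  apply h0
  have h1 := Measure.measure_toMeasurable_inter_of_sFinite (μ := μ) hT S
  rw [inter_eq_right.2 hTS] at h1
  rw [h1]
  exact measure_mono_null (fun x hx => h x hx.1 hx.2) hP

lemma greedy {D : Set ℝ} (hD : MeasurableSet D) {S1 S2 W : Set ℝ} (hW : MeasurableSet W)
    (hW0 : volume.restrict D W ≠ 0) (h1 : W ⊆ toMeasurable (volume.restrict D) S1)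
    (h2 : W ⊆ toMeasurable (volume.restrict D) S2) {h G : ℝ → ℝ} {d B : ℝ}
    (hd : ∀ x ∈ S1, ∀ y ∈ S2, d ≤ h x - h y) (hG : AEMeasurable G volume) (hB : ∀ s, |G s| ≤ B)
    (n : ℕ) : ∃ (m : ℕ) (c x : Fin m → ℝ), m = 2 * n ∧ (∀ i, |c i| ≤ 1 ∧ x i ∈ D ∧ x i ∈ W) ∧
      n * d ≤ ∑ i, c i * h (x i) ∧ ∑ i, ∑ j, c i * c j * G (x i - x j) ≤ n * (1 + 4 * B) := by
  induction n with
  | zero => exact ⟨0, Fin.elim0, Fin.elim0, rfl, fun i => i.elim0, by simp, by simp⟩
  | succ n ih =>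
    obtain ⟨m, c, x, hm, hcx, hl, hq⟩ := ih
    set u : ℝ → ℝ := fun z => ∑ j, c j * (G (z - x j) + G (x j - z)) with hu
    have hum : AEMeasurable u volume := by
      refine Finset.aemeasurable_fun_sum _ fun j _ => AEMeasurable.const_mul (AEMeasurable.add ?_ ?_) _
      · exact hG.comp_quasiMeasurePreserving
          (measurePreserving_sub_right volume (x j)).quasiMeasurePreserving
      · exact hG.comp_quasiMeasurePreserving
          (Measure.measurePreserving_sub_left volume (x j)).quasiMeasurePreserving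
    obtain ⟨k, hk⟩ := slice hW0 (hum.mk u)
    have hT : MeasurableSet (W ∩ hum.mk u ⁻¹' Ico (k : ℝ) (k + 1)) :=
      hW.inter (hum.measurable_mk measurableSet_Ico)
    have hP : ∀ᵐ z ∂(volume.restrict D), z ∈ D ∧ u z = hum.mk u z :=
      (ae_restrict_mem hD).and (ae_restrict_of_ae hum.ae_eq_mk)
    obtain ⟨a, ha1, ha2, ha3⟩ := pick hT hk (inter_subset_left.trans h1) hP
    obtain ⟨b, hb1, hb2, hb3⟩ := pick hT hk (inter_subset_left.trans h2) hP
    have hab : u a - u b ≤ 1 := by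
      rw [ha3.2, hb3.2]
      linarith [ha2.2.2, hb2.2.1]
    refine ⟨m + 1 + 1, Fin.cons 1 (Fin.cons (-1) c), Fin.cons a (Fin.cons b x), by omega, ?_, ?_, ?_⟩
    · intro i
      refine Fin.cases ?_ (fun i => Fin.cases ?_ (fun i => ?_) i) i
      · simpa using ⟨ha3.1, ha2.1⟩
      · simpa using ⟨hb3.1, hb2.1⟩
      · simpa using hcx i
    · simp only [Fin.sum_univ_succ, Fin.cons_zero, Fin.cons_succ]
      push_cast
      linarith [hd a ha1 b hb1]
    · simp only [Fin.sum_univ_succ, Fin.cons_zero, Fin.cons_succ, Finset.sum_add_distrib]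
      have e1 : u a = ∑ j, 1 * c j * G (a - x j) + ∑ j, c j * 1 * G (x j - a) := by
        rw [hu, ← Finset.sum_add_distrib]
        exact Finset.sum_congr rfl fun j _ => by ring
      have e2 : -u b = ∑ j, -1 * c j * G (b - x j) + ∑ j, c j * -1 * G (x j - b) := by
        rw [hu, ← Finset.sum_add_distrib, ← Finset.sum_neg_distrib]
        exact Finset.sum_congr rfl fun j _ => by ring
      have b1 := abs_le.1 (hB (a - a))
      have b2 := abs_le.1 (hB (b - b))
      have b3 := abs_le.1 (hB (a - b))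
      have b4 := abs_le.1 (hB (b - a))
      push_cast
      linarith [b1.2, b2.2, b3.1, b4.1]

lemma core {D : Set ℝ} (hD : MeasurableSet D) (h : ℝ → ℝ)
    (H : ∀ ε > 0, ∃ (δ K B : ℝ) (G : ℝ → ℝ), 0 < δ ∧ 0 ≤ K ∧ AEMeasurable G volume ∧
      (∀ s, |G s| ≤ B) ∧ ∀ (m : ℕ) (c x : Fin m → ℝ), 0 < m → (∀ i, |c i| ≤ 1 ∧ x i ∈ D) →
        (∀ i j, |x i - x j| < δ) →
        (∑ i, c i * h (x i)) / m ≤ ε + K * ((∑ i, ∑ j, c i * c j * G (x i - x j)) / m ^ 2)) :
    AEMeasurable h (volume.restrict D) := by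
  have key : AEMeasurable (fun x => (h x : EReal)) (volume.restrict D) := by
    refine aemeasurable_of_exist_almost_disjoint_supersets _ (range fun q : ℚ => ((q : ℝ) : EReal))
      (countable_range _) ?_ _ ?_
    · refine dense_of_exists_between fun a b hab => ?_
      obtain ⟨q, h1, h2⟩ := EReal.exists_rat_btwn_of_lt hab
      exact ⟨_, ⟨q, rfl⟩, h1, h2⟩
    rintro _ ⟨p, rfl⟩ _ ⟨q, rfl⟩ hpq
    have hpq' : (p : ℝ) < q := EReal.coe_lt_coe_iff.1 hpq
    refine ⟨_, _, measurableSet_toMeasurable (volume.restrict D) _,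
      measurableSet_toMeasurable (volume.restrict D) _, subset_toMeasurable _ _,
      subset_toMeasurable _ _, ?_⟩
    by_contra h0
    obtain ⟨δ, K, B, G, hδ, hK, hG, hB, hH⟩ := H ((q - p) / 4) (by linarith)
    obtain ⟨k, hk⟩ := slice h0 (fun z => z / δ)
    have hB0 : 0 ≤ B := (abs_nonneg _).trans (hB 0)
    obtain ⟨n, hn⟩ := exists_nat_gt (K * (1 + 4 * B) / (q - p))
    have hn0 : (0 : ℝ) < n := lt_of_le_of_lt (div_nonneg (by positivity) (by linarith)) hn
    obtain ⟨m, c, x, hm, hcx, hl, hq⟩ := greedy (h := h) (d := q - p) hD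
      (((measurableSet_toMeasurable _ _).inter (measurableSet_toMeasurable _ _)).inter
        ((measurable_id.div_const δ) measurableSet_Ico)) hk
      (inter_subset_left.trans inter_subset_right) (inter_subset_left.trans inter_subset_left)
      (fun a ha b hb => by
        have h1 : (q : ℝ) < h a := by exact_mod_cast (show ((q : ℝ) : EReal) < h a from ha)
        have h2 : h b < p := by exact_mod_cast (show (h b : EReal) < (p : ℝ) from hb)
        linarith) hG hB n
    have hm' : (m : ℝ) = 2 * n := by rw [hm]; push_cast; ring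
    have := hH m c x (by rw [← Nat.cast_pos (α := ℝ), hm']; linarith)
      (fun i => ⟨(hcx i).1, (hcx i).2.1⟩) (fun i j => by
        have a1 : x i / δ ∈ Ico (k : ℝ) (k + 1) := (hcx i).2.2.2
        have a2 : x j / δ ∈ Ico (k : ℝ) (k + 1) := (hcx j).2.2.2
        have : |x i / δ - x j / δ| < 1 := by
          rw [abs_lt]; constructor <;> linarith [a1.1, a1.2, a2.1, a2.2]
        rwa [← sub_div, abs_div, abs_of_pos hδ, div_lt_one hδ] at this)
    rw [hm'] at this
    have e1 : ((q : ℝ) - p) / 2 ≤ (∑ i, c i * h (x i)) / (2 * n) := by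
      rw [le_div_iff₀ (by positivity)]; linarith
    have e2 : (∑ i, ∑ j, c i * c j * G (x i - x j)) / (2 * n) ^ 2 ≤ (1 + 4 * B) / (4 * n) := by
      rw [div_le_div_iff₀ (by positivity) (by positivity)]; nlinarith
    have e3 : K * ((1 + 4 * B) / (4 * n)) < (q - p) / 4 := by
      rw [div_lt_iff₀ (by linarith)] at hn
      rw [← mul_div_assoc, div_lt_iff₀ (by positivity)]; linarith
    nlinarith [mul_le_mul_of_nonneg_left e2 hK]
  simpa using key.ereal_toReal

end Pool.Agent.KS6_69.AP
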