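import Mathlib

set_option autoImplicit false

namespace Pool.Agent.KS6_69.AP

open MeasureTheory Set
open scoped ComplexOrder

/-- The interval `(-A, A)` for `A` in `(0, ∞]`. -/
def dom (A : EReal) : Set ℝ := {x | ((|x| : ℝ) : EReal) < A}

/-- `Φ_f` applied to the polynomial with coefficient `p x` at the exponent `x`. -/
noncomputable def Phi (f : ℝ → ℂ) (p : ℝ →₀ ℂ) : ℂ := ∑ x ∈ p.support, p x * f x

/-- The value at `t` of the almost periodic polynomial with coefficients `p`. -/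
noncomputable def ev (p : ℝ →₀ ℂ) (t : ℝ) : ℂ :=
  ∑ x ∈ p.support, p x * Complex.exp (Complex.I * (x : ℂ) * (t : ℂ))

/-- All exponents of `p` lie in `D`. -/
def InAP (D : Set ℝ) (p : ℝ →₀ ℂ) : Prop := ∀ x ∈ p.support, x ∈ D

/-- `Φ_f` is bounded for the sup norm on polynomials with exponents in `D`. -/
def InR (D : Set ℝ) (f : ℝ → ℂ) : Prop :=
  ∃ C : ℝ, ∀ p, InAP D p → ∀ m : ℝ, (∀ t, ‖ev p t‖ ≤ m) → ‖Phi f p‖ ≤ C * m

/-- The operator norm of `Φ_f` on polynomials with exponents in `D`. -/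
noncomputable def nrm (D : Set ℝ) (f : ℝ → ℂ) : ℝ :=
  sSup {r | ∃ p, InAP D p ∧ (∀ t, ‖ev p t‖ ≤ 1) ∧ r = ‖Phi f p‖}

/-- `f` is Hermitian on `D`. -/
def Herm (D : Set ℝ) (f : ℝ → ℂ) : Prop := ∀ x ∈ D, f (-x) = (starRingEnd ℂ) (f x)

/-- `Φ_f` is bounded and non-negative on non-negative polynomials with exponents in `D`. -/
def InP (D : Set ℝ) (f : ℝ → ℂ) : Prop :=
  InR D f ∧ ∀ p, InAP D p → (∀ t, 0 ≤ ev p t) → 0 ≤ Phi f p

/-- `f` is Lebesgue measurable on `D`. -/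
def Meas (D : Set ℝ) (f : ℝ → ℂ) : Prop := AEMeasurable f (volume.restrict D)

end Pool.Agent.KS6_69.AP
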