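import Mathlib
import Pool.Agent.KS6_69.AP.AP0
import Pool.Agent.KS6_69.AP.APDefs

set_option autoImplicit false

namespace Pool.Agent.KS6_69.AP

open MeasureTheory Set Filter Topology
open scoped ComplexConjugate

abbrev V : Type := ℝ →₀ ℂ

noncomputable abbrev L (f : ℝ → ℂ) : V →ₗ[ℂ] ℂ := Finsupp.linearCombination ℂ f

noncomputable def ch (t x : ℝ) : ℂ := Complex.exp (Complex.I * (x : ℂ) * (t : ℂ))

abbrev Sp (D : Set ℝ) : Submodule ℂ V := Finsupp.supported ℂ ℂ D

lemma L_eq (f : ℝ → ℂ) (p : V) : L f p = ∑ x ∈ p.support, p x * f x := rfl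
lemma Phi_eq (f : ℝ → ℂ) (p : V) : Phi f p = L f p := rfl
lemma ev_eq (p : V) (t : ℝ) : ev p t = L (ch t) p := rfl
lemma inAP_iff (D : Set ℝ) (p : V) : InAP D p ↔ p ∈ Sp D := Iff.rfl

lemma L_single (f : ℝ → ℂ) (x : ℝ) (c : ℂ) : L f (Finsupp.single x c) = c * f x := by
  simp [L]

lemma ch_zero (t : ℝ) : ch t 0 = 1 := by simp [ch]
lemma ch_add (t x y : ℝ) : ch t (x + y) = ch t x * ch t y := by
  unfold ch; rw [← Complex.exp_add]; congr 1; push_cast; ring
lemma ch_neg (t x : ℝ) : ch t (-x) = conj (ch t x) := by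
  unfold ch; rw [← Complex.exp_conj]; congr 1; simp
lemma norm_ch (t x : ℝ) : ‖ch t x‖ = 1 := by
  unfold ch
  rw [show Complex.I * (x : ℂ) * (t : ℂ) = ((x * t : ℝ) : ℂ) * Complex.I by push_cast; ring]
  exact Complex.norm_exp_ofReal_mul_I _

noncomputable def sh (μ : ℝ) (p : V) : V := ∑ x ∈ p.support, Finsupp.single (x + μ) (p x)
noncomputable def cj (p : V) : V := ∑ x ∈ p.support, Finsupp.single (-x) (conj (p x))

lemma L_sh (f : ℝ → ℂ) (μ : ℝ) (p : V) : L f (sh μ p) = ∑ x ∈ p.support, p x * f (x + μ) := by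
  simp only [sh, map_sum, L_single]

lemma ev_sh (t μ : ℝ) (p : V) : L (ch t) (sh μ p) = ch t μ * L (ch t) p := by
  rw [L_sh, L_eq, Finset.mul_sum]
  exact Finset.sum_congr rfl fun x _ => by rw [ch_add]; ring

lemma L_cj {f : ℝ → ℂ} {p : V} (h : ∀ x ∈ p.support, f (-x) = conj (f x)) :
    L f (cj p) = conj (L f p) := by
  simp only [cj, map_sum, L_single]
  rw [L_eq, map_sum]
  exact Finset.sum_congr rfl fun x hx => by rw [h x hx, map_mul]

lemma ev_cj (t : ℝ) (p : V) : L (ch t) (cj p) = conj (L (ch t) p) :=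
  L_cj fun x _ => ch_neg t x

lemma sh_mem {D : Set ℝ} {μ : ℝ} {p : V} (h : ∀ x ∈ p.support, x + μ ∈ D) : sh μ p ∈ Sp D :=
  Submodule.sum_mem _ fun x hx => Finsupp.single_mem_supported _ _ (h x hx)

lemma cj_mem {D : Set ℝ} (hD : ∀ x ∈ D, -x ∈ D) {p : V} (h : p ∈ Sp D) : cj p ∈ Sp D :=
  Submodule.sum_mem _ fun x hx => Finsupp.single_mem_supported _ _ (hD x (h hx))

lemma L_congr {D : Set ℝ} {f g : ℝ → ℂ} (h : ∀ x ∈ D, f x = g x) {p : V} (hp : p ∈ Sp D) :
    L f p = L g p := by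
  rw [L_eq, L_eq]
  exact Finset.sum_congr rfl fun x hx => by rw [h x (hp hx)]

lemma nrm_bdd {D : Set ℝ} {f : ℝ → ℂ} (h : InR D f) :
    BddAbove {r | ∃ p, InAP D p ∧ (∀ t, ‖ev p t‖ ≤ 1) ∧ r = ‖Phi f p‖} := by
  obtain ⟨C, hC⟩ := h
  refine ⟨C, ?_⟩
  rintro _ ⟨p, hp, h1, rfl⟩
  simpa using hC p hp 1 h1

lemma zero_mem_nrm (D : Set ℝ) (f : ℝ → ℂ) :
    (0 : ℝ) ∈ {r | ∃ p, InAP D p ∧ (∀ t, ‖ev p t‖ ≤ 1) ∧ r = ‖Phi f p‖} :=
  ⟨0, (Sp D).zero_mem, fun t => by simp [ev_eq], by simp [Phi_eq]⟩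

lemma nrm_nonneg {D : Set ℝ} {f : ℝ → ℂ} (h : InR D f) : 0 ≤ nrm D f :=
  le_csSup (nrm_bdd h) (zero_mem_nrm D f)

lemma nrm_le {D : Set ℝ} {f : ℝ → ℂ} {M : ℝ}
    (h : ∀ p ∈ Sp D, (∀ t, ‖L (ch t) p‖ ≤ 1) → ‖L f p‖ ≤ M) : nrm D f ≤ M := by
  refine csSup_le ⟨0, zero_mem_nrm D f⟩ ?_
  rintro _ ⟨p, hp, h1, rfl⟩
  exact h p hp h1

lemma le_nrm {D : Set ℝ} {f : ℝ → ℂ} (h : InR D f) {p : V} (hp : p ∈ Sp D) {m : ℝ}
    (hm : ∀ t, ‖L (ch t) p‖ ≤ m) : ‖L f p‖ ≤ nrm D f * m := by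
  have h0 := nrm_nonneg h
  have key : ∀ m' : ℝ, m < m' → ‖L f p‖ ≤ nrm D f * m' := by
    intro m' hm'
    have hpos : 0 < m' := lt_of_le_of_lt ((norm_nonneg _).trans (hm 0)) hm'
    have := le_csSup (nrm_bdd h) ⟨((m' : ℂ)⁻¹) • p, (Sp D).smul_mem _ hp, fun t => by
      rw [ev_eq, map_smul, norm_smul, norm_inv, Complex.norm_real, Real.norm_of_nonneg hpos.le,
        inv_mul_le_iff₀ hpos]
      linarith [hm t], rfl⟩
    rw [Phi_eq, map_smul, norm_smul, norm_inv, Complex.norm_real, Real.norm_of_nonneg hpos.le,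
      inv_mul_le_iff₀ hpos, mul_comm] at this
    exact this
  refine le_of_forall_pos_le_add fun ε hε => ?_
  have := key (m + ε / (nrm D f + 1)) (by have : 0 < ε / (nrm D f + 1) := by positivity
                                          linarith)
  have h2 : nrm D f * (ε / (nrm D f + 1)) ≤ ε := by
    rw [← mul_div_assoc, div_le_iff₀ (by positivity)]; nlinarith
  nlinarith

lemma rot (z : ℂ) : ∃ ω : ℂ, ‖ω‖ = 1 ∧ ω * z = ‖z‖ := by
  obtain ⟨ω, h1, h2⟩ := Complex.exists_norm_mul_eq_self z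
  refine ⟨conj ω, by simpa using h1, ?_⟩
  have h3 : conj ω * ω = 1 := by rw [Complex.conj_mul', h1]; simp
  conv_lhs => rw [← h2]
  rw [← mul_assoc, h3, one_mul]

lemma near {D : Set ℝ} {f : ℝ → ℂ} {ε : ℝ} (hε : 0 < ε) :
    ∃ p ∈ Sp D, (∀ t, ‖L (ch t) p‖ ≤ 1) ∧ nrm D f - ε ≤ (L f p).re := by
  obtain ⟨_, ⟨p, hp, h1, rfl⟩, h2⟩ := exists_lt_of_lt_csSup ⟨0, zero_mem_nrm D f⟩
    (show nrm D f - ε < nrm D f by linarith)
  obtain ⟨ω, hω, h3⟩ := rot (L f p)
  refine ⟨ω • p, (Sp D).smul_mem _ hp, fun t => ?_, ?_⟩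
  · rw [map_smul, norm_smul, hω, one_mul]; exact h1 t
  · rw [map_smul, smul_eq_mul, h3, Complex.ofReal_re]; exact h2.le

lemma main {D D' : Set ℝ} (hD : IsOpen D) (hD' : MeasurableSet D') {f ψ : ℝ → ℂ}
    (hR : InR D f) (hf : Meas D f)
    (H : ∀ η : ℝ, 0 ≤ η → ∀ v ∈ Sp D, ∀ w ∈ Sp D', (∀ t, ‖L (ch t) v‖ ≤ 1) →
      (∀ t, ‖L (ch t) (v + w)‖ ≤ 1 + η) → (L f v + L ψ w).re ≤ nrm D f * (1 + η)) :
    Meas D' ψ := by
  classical
  set M := nrm D f with hM
  have hM0 : 0 ≤ M := nrm_nonneg hR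
  set g : ℝ → ℂ := D.indicator f with hg
  have hgm : AEMeasurable g volume := (aemeasurable_indicator_iff hD.measurableSet).2 hf
  have hgf : ∀ x ∈ D, f x = g x := fun x hx => by rw [hg, indicator_of_mem hx]
  have hgb : ∀ x, ‖g x‖ ≤ M := by
    intro x
    by_cases hx : x ∈ D
    · have := le_nrm hR (Finsupp.single_mem_supported ℂ (1 : ℂ) hx) (m := 1)
        (fun t => by rw [L_single, one_mul, norm_ch])
      rwa [L_single, one_mul, mul_one, hgf x hx] at this
    · rw [hg, indicator_of_notMem hx, norm_zero]; exact hM0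
  have key : ∀ ω : ℂ, ‖ω‖ = 1 → AEMeasurable (fun x => (ω * ψ x).re) (volume.restrict D') := by
    intro ω hω
    refine core hD' _ fun ε hε => ?_
    set β := ε / (M + 1) with hβ
    have hβ0 : 0 < β := by positivity
    obtain ⟨p, hp, hp1, hp2⟩ := near (D := D) (f := f) (ε := β * ε / 2) (by positivity)
    obtain ⟨δ, hδ, hδD⟩ : ∃ δ > 0, ∀ s : ℝ, |s| < δ → ∀ x ∈ p.support, x + s ∈ D := by
      have : ∀ᶠ s in 𝓝 (0 : ℝ), ∀ x ∈ p.support, x + s ∈ D := by
        rw [eventually_all_finset]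
        intro x hx
        have h1 : Tendsto (fun s : ℝ => x + s) (𝓝 0) (𝓝 x) := by
          simpa using (continuous_const_add x).tendsto 0
        exact h1.eventually (hD.mem_nhds (hp hx))
      obtain ⟨δ, hδ, h⟩ := Metric.eventually_nhds_iff.1 this
      exact ⟨δ, hδ, fun s hs => h (by simpa using hs)⟩
    refine ⟨δ, 1 / β, ∑ x ∈ p.support, ‖p x‖ * M, fun s => (L g (sh s p)).re, hδ, by positivity,
      ?_, fun s => ?_, fun m c x hm hcx hxx => ?_⟩
    · simp only [L_sh]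
      refine Complex.measurable_re.comp_aemeasurable ?_
      refine Finset.aemeasurable_fun_sum _ fun y _ => AEMeasurable.const_mul ?_ _
      exact hgm.comp_quasiMeasurePreserving
        (measurePreserving_add_left volume y).quasiMeasurePreserving
    · refine (Complex.abs_re_le_norm _).trans ?_
      rw [L_sh]
      refine (norm_sum_le _ _).trans (Finset.sum_le_sum fun y _ => ?_)
      rw [norm_mul]
      exact mul_le_mul_of_nonneg_left (hgb _) (norm_nonneg _)
    · have hm' : (0 : ℝ) < m := by exact_mod_cast hm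
      set q : V := ∑ i, Finsupp.single (x i) ((c i / m : ℝ) : ℂ) with hq
      set r : V := ∑ i, ∑ j, ((c i * c j / m ^ 2 : ℝ) : ℂ) • sh (x i - x j) p with hr
      have hqm : q ∈ Sp D' :=
        Submodule.sum_mem _ fun i _ => Finsupp.single_mem_supported _ _ (hcx i).2
      have hrm : r ∈ Sp D := Submodule.sum_mem _ fun i _ => Submodule.sum_mem _ fun j _ =>
        Submodule.smul_mem _ _ (sh_mem (hδD _ (hxx i j)))
      have hq1 : ∀ t, ‖L (ch t) q‖ ≤ 1 := by
        intro t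
        simp only [hq, map_sum, L_single]
        refine (norm_sum_le _ _).trans ?_
        have : ∀ i ∈ (Finset.univ : Finset (Fin m)), ‖((c i / m : ℝ) : ℂ) * ch t (x i)‖ ≤ 1 / m := by
          intro i _
          rw [norm_mul, norm_ch, mul_one, Complex.norm_real, Real.norm_eq_abs, abs_div,
            abs_of_pos hm']
          exact div_le_div_of_nonneg_right (hcx i).1 hm'.le
        refine (Finset.sum_le_sum this).trans ?_
        simp [hm'.ne']
      have hr1 : ∀ t, L (ch t) r = ((‖L (ch t) q‖ ^ 2 : ℝ) : ℂ) * L (ch t) p := by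
        intro t
        rw [Complex.ofReal_pow, ← Complex.mul_conj']
        simp only [hr, hq, map_sum, map_smul, L_single, ev_sh, smul_eq_mul,
          Finset.sum_mul, map_mul, Complex.conj_ofReal, sub_eq_add_neg, ch_add, ch_neg]
        simp only [Finset.mul_sum, Finset.sum_mul]
        refine Finset.sum_congr rfl fun i _ => Finset.sum_congr rfl fun j _ => ?_
        push_cast; ring
      have hv : ∀ t, ‖L (ch t) (p - r)‖ ≤ 1 - ‖L (ch t) q‖ ^ 2 := by
        intro t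
        have h1 : 0 ≤ 1 - ‖L (ch t) q‖ ^ 2 := by nlinarith [hq1 t, norm_nonneg (L (ch t) q)]
        rw [map_sub, hr1, ← one_sub_mul, norm_mul, ← Complex.ofReal_one, ← Complex.ofReal_sub,
          Complex.norm_real, Real.norm_of_nonneg h1]
        exact mul_le_of_le_one_right h1 (hp1 t)
      have := H (β ^ 2 / 4) (by positivity) (p - r) ((Sp D).sub_mem hp hrm) (((β : ℂ) * ω) • q)
        ((Sp D').smul_mem _ hqm) (fun t => (hv t).trans (by nlinarith)) (fun t => by
          rw [map_add, map_smul]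
          refine (norm_add_le _ _).trans ?_
          rw [norm_smul, norm_mul, hω, Complex.norm_real, Real.norm_of_nonneg hβ0.le]
          nlinarith [hv t, sq_nonneg (‖L (ch t) q‖ - β / 2)])
      have e1 : (L f r).re = (∑ i, ∑ j, c i * c j * (L g (sh (x i - x j) p)).re) / m ^ 2 := by
        rw [L_congr hgf hrm]
        simp only [hr, map_sum, map_smul, smul_eq_mul, Complex.re_sum, Complex.re_ofReal_mul,
          Finset.sum_div]
        exact Finset.sum_congr rfl fun i _ => Finset.sum_congr rfl fun j _ => by ring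
      have e2 : (L ψ (((β : ℂ) * ω) • q)).re = β * ((∑ i, c i * (ω * ψ (x i)).re) / m) := by
        simp only [hq, map_smul, map_sum, L_single, smul_eq_mul, mul_assoc, Complex.re_ofReal_mul,
          Finset.mul_sum, Complex.re_sum, Finset.sum_div]
        refine Finset.sum_congr rfl fun i _ => ?_
        rw [mul_left_comm ω, Complex.re_ofReal_mul]; ring
      rw [Complex.add_re, map_sub, Complex.sub_re, e1, e2] at this
      have h3 : M * β ≤ ε := by
        rw [hβ, ← mul_div_assoc, div_le_iff₀ (by positivity)]; nlinarith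
      rw [← hM] at hp2
      rw [one_div, ← sub_le_iff_le_add', le_inv_mul_iff₀ hβ0]
      nlinarith
  have h1 := key 1 (by simp)
  have h2 := key (-Complex.I) (by simp)
  have h3 : AEMeasurable (fun x => (((1 * ψ x).re : ℝ) : ℂ) + ((-Complex.I * ψ x).re : ℝ) * Complex.I)
      (volume.restrict D') :=
    (Complex.measurable_ofReal.comp_aemeasurable h1).add
      ((Complex.measurable_ofReal.comp_aemeasurable h2).mul_const _)
  refine h3.congr (Eventually.of_forall fun x => ?_)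
  simp [Complex.re_add_im]

end Pool.Agent.KS6_69.AP
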