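import Mathlib
import Pool.Agent.KS6_69.AP.AP1

set_option autoImplicit false

namespace Pool.Agent.KS6_69.AP

open MeasureTheory Set Filter Topology
open scoped ComplexConjugate ComplexOrder

lemma hb {W E : Type} [AddCommGroup W] [Module ℝ W] [AddCommGroup E] [Module ℝ E]
    (j : W →ₗ[ℝ] E) (hj : Function.Injective j) (φ : W →ₗ[ℝ] ℝ) (N : E → ℝ)
    (N_hom : ∀ c : ℝ, 0 < c → ∀ x, N (c • x) = c * N x) (N_add : ∀ x y, N (x + y) ≤ N x + N y)
    (h : ∀ w, φ w ≤ N (j w)) : ∃ g : E →ₗ[ℝ] ℝ, (∀ w, g (j w) = φ w) ∧ ∀ x, g x ≤ N x := by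
  obtain ⟨g, hg1, hg2⟩ := exists_extension_of_le_sublinear
    ⟨LinearMap.range j, φ.comp (LinearEquiv.ofInjective j hj).symm.toLinearMap⟩ N N_hom N_add (by
      rintro ⟨_, w, rfl⟩
      have : (LinearEquiv.ofInjective j hj).symm ⟨j w, w, rfl⟩ = w :=
        (LinearEquiv.ofInjective j hj).symm_apply_apply w
      show φ ((LinearEquiv.ofInjective j hj).symm ⟨j w, w, rfl⟩) ≤ N (j w)
      rw [this]; exact h w)
  refine ⟨g, fun w => ?_, hg2⟩
  have := hg1 ⟨j w, w, rfl⟩
  have h2 : (LinearEquiv.ofInjective j hj).symm ⟨j w, w, rfl⟩ = w :=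
    (LinearEquiv.ofInjective j hj).symm_apply_apply w
  refine this.trans ?_
  show φ ((LinearEquiv.ofInjective j hj).symm ⟨j w, w, rfl⟩) = φ w
  rw [h2]

noncomputable def cx (g : V →ₗ[ℝ] ℝ) (x : ℝ) : ℂ :=
  g (Finsupp.single x 1) - Complex.I * g (Finsupp.single x Complex.I)

lemma cx_re (g : V →ₗ[ℝ] ℝ) (u : V) : (L (cx g) u).re = g u := by
  induction u using Finsupp.induction_linear with
  | zero => simp
  | add u v hu hv => rw [map_add, map_add, Complex.add_re, hu, hv]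
  | single x c =>
    have : Finsupp.single x c = c.re • Finsupp.single x (1 : ℂ) +
        c.im • Finsupp.single x Complex.I := by
      rw [Finsupp.smul_single, Finsupp.smul_single, ← Finsupp.single_add]
      congr 1
      simp [Complex.re_add_im]
    rw [L_single]
    conv_rhs => rw [this, map_add, map_smul, map_smul]
    simp [cx]

noncomputable def S (φ : ℂ → ℝ) (u : V) : ℝ := ⨆ t, φ (L (ch t) u)

lemma ev_le (t : ℝ) (u : V) : ‖L (ch t) u‖ ≤ ∑ x ∈ u.support, ‖u x‖ := by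
  rw [L_eq]
  exact (norm_sum_le _ _).trans (Finset.sum_le_sum fun x _ => by rw [norm_mul, norm_ch, mul_one])

lemma le_S {φ : ℂ → ℝ} (h : ∀ z, φ z ≤ ‖z‖) (u : V) (t : ℝ) : φ (L (ch t) u) ≤ S φ u :=
  le_ciSup (f := fun t => φ (L (ch t) u))
    ⟨_, by rintro _ ⟨t, rfl⟩; exact (h _).trans (ev_le t u)⟩ t

lemma S_le {φ : ℂ → ℝ} {u : V} {m : ℝ} (h : ∀ t, φ (L (ch t) u) ≤ m) : S φ u ≤ m := ciSup_le h

lemma S_hom {φ : ℂ → ℝ} (h : ∀ c : ℝ, 0 < c → ∀ z, φ (c * z) = c * φ z) (c : ℝ) (hc : 0 < c)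
    (u : V) : S φ (c • u) = c * S φ u := by
  unfold S
  rw [Real.mul_iSup_of_nonneg hc.le]
  congr 1; ext t
  rw [← h c hc, ← Complex.coe_smul, map_smul, smul_eq_mul]

lemma S_add {φ : ℂ → ℝ} (h : ∀ z, φ z ≤ ‖z‖) (h2 : ∀ z w, φ (z + w) ≤ φ z + φ w) (u v : V) :
    S φ (u + v) ≤ S φ u + S φ v :=
  S_le fun t => by rw [map_add]; exact (h2 _ _).trans (add_le_add (le_S h u t) (le_S h v t))

lemma norm_of_re {F : ℝ → ℂ} {M : ℝ} {D : Set ℝ}
    (h : ∀ u ∈ Sp D, ∀ m : ℝ, (∀ t, ‖L (ch t) u‖ ≤ m) → (L F u).re ≤ M * m) {u : V}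
    (hu : u ∈ Sp D) {m : ℝ} (hm : ∀ t, ‖L (ch t) u‖ ≤ m) : ‖L F u‖ ≤ M * m := by
  obtain ⟨ω, hω, h3⟩ := rot (L F u)
  have := h (ω • u) ((Sp D).smul_mem _ hu) m fun t => by
    rw [map_smul, norm_smul, hω, one_mul]; exact hm t
  rwa [map_smul, smul_eq_mul, h3, Complex.ofReal_re] at this

lemma mem_univ' (u : V) : u ∈ Sp univ := fun _ _ => trivial

lemma eq_of_re {D : Set ℝ} {f g : ℝ → ℂ} (h : ∀ u ∈ Sp D, (L f u).re = (L g u).re) {x : ℝ}
    (hx : x ∈ D) : f x = g x := by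
  have h1 := h _ (Finsupp.single_mem_supported ℂ (1 : ℂ) hx)
  have h2 := h _ (Finsupp.single_mem_supported ℂ Complex.I hx)
  rw [L_single, L_single] at h1 h2
  apply Complex.ext
  · simpa using h1
  · simpa using h2

lemma extend {D : Set ℝ} {f : ℝ → ℂ} (hR : InR D f) : ∃ F : ℝ → ℂ, (∀ x ∈ D, F x = f x) ∧
    ∀ (u : V) (m : ℝ), (∀ t, ‖L (ch t) u‖ ≤ m) → ‖L F u‖ ≤ nrm D f * m := by
  have hM := nrm_nonneg hR
  obtain ⟨g, hg1, hg2⟩ := hb (W := Sp D) (E := V) ((Sp D).subtype.restrictScalars ℝ)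
    Subtype.val_injective
    (Complex.reLm.comp (((L f).comp (Sp D).subtype).restrictScalars ℝ))
    (fun u => nrm D f * S norm u)
    (fun c hc u => by
      rw [S_hom (fun c hc z => by
        rw [norm_mul, Complex.norm_real, Real.norm_of_nonneg hc.le]) c hc]; ring)
    (fun u v => by
      rw [← mul_add]
      exact mul_le_mul_of_nonneg_left (S_add (fun _ => le_rfl) norm_add_le u v) hM)
    (fun w => (Complex.re_le_norm _).trans (le_nrm hR w.2 (le_S (fun _ => le_rfl) w.1)))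
  refine ⟨cx g, fun x hx => eq_of_re (fun u hu => ?_) hx, fun u m hm => ?_⟩
  · rw [cx_re]; exact hg1 ⟨u, hu⟩
  · refine norm_of_re (fun u _ m hm => ?_) (mem_univ' u) hm
    rw [cx_re]
    exact (hg2 u).trans (mul_le_mul_of_nonneg_left (S_le hm) hM)

lemma ext_meas {D : Set ℝ} (hD : IsOpen D) {f F : ℝ → ℂ} (hR : InR D f) (hf : Meas D f)
    (h1 : ∀ x ∈ D, F x = f x)
    (h2 : ∀ (u : V) (m : ℝ), (∀ t, ‖L (ch t) u‖ ≤ m) → ‖L F u‖ ≤ nrm D f * m) :
    Meas univ F := by
  refine main hD MeasurableSet.univ hR hf fun η _ v hv w _ _ h => ?_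
  rw [← L_congr h1 hv, ← map_add]
  exact (Complex.re_le_norm _).trans (h2 _ _ h)

lemma pos_aux {D : Set ℝ} (h0 : (0 : ℝ) ∈ D) (hs : ∀ x ∈ D, -x ∈ D) {f : ℝ → ℂ} (hP : InP D f)
    {u : V} (hu : u ∈ Sp D) {m : ℝ} (hm : ∀ t, ‖L (ch t) u‖ ≤ m) :
    0 ≤ ((2 * m : ℝ) : ℂ) * f 0 - (L f u + L f (cj u)) := by
  have := hP.2 (Finsupp.single 0 ((2 * m : ℝ) : ℂ) - (u + cj u))
    ((Sp D).sub_mem (Finsupp.single_mem_supported _ _ h0) ((Sp D).add_mem hu (cj_mem hs hu)))
    (fun t => by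
      rw [ev_eq, map_sub, map_add, L_single, ch_zero, mul_one, ev_cj, Complex.add_conj,
        ← Complex.ofReal_sub, Complex.zero_le_real]
      linarith [hm t, Complex.re_le_norm (L (ch t) u)])
  rwa [Phi_eq, map_sub, map_add, L_single] at this

lemma pos_herm {D : Set ℝ} (h0 : (0 : ℝ) ∈ D) (hs : ∀ x ∈ D, -x ∈ D) {f : ℝ → ℂ} (hP : InP D f) :
    0 ≤ f 0 ∧ Herm D f := by
  have a0 : 0 ≤ f 0 := by
    have := hP.2 (Finsupp.single 0 1) (Finsupp.single_mem_supported ℂ (1 : ℂ) h0)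
      (fun t => by rw [ev_eq, L_single, ch_zero]; simp)
    rwa [Phi_eq, L_single, one_mul] at this
  refine ⟨a0, fun x hx => ?_⟩
  have key : ∀ c : ℂ, ‖c‖ = 1 → (c * f x + conj c * f (-x)).im = 0 := by
    intro c hc
    have hc0 : c ≠ 0 := by rintro rfl; simp at hc
    have := pos_aux h0 hs hP (Finsupp.single_mem_supported ℂ c hx) (m := 1)
      (fun t => by rw [L_single, norm_mul, hc, norm_ch, one_mul])
    rw [cj, Finsupp.support_single _ hc0, Finset.sum_singleton, L_single, L_single,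
      Finsupp.single_eq_same] at this
    have h1 := (Complex.le_def.1 this).2
    have h2 := (Complex.le_def.1 a0).2
    simp only [Complex.zero_im, Complex.sub_im, Complex.im_ofReal_mul] at h1 h2
    rw [← h2] at h1
    linarith
  have k1 := key 1 (by simp)
  have k2 := key Complex.I (by simp)
  simp at k1 k2
  apply Complex.ext
  · simp; linarith
  · simp; linarith

lemma pos_bound {D : Set ℝ} (h0 : (0 : ℝ) ∈ D) (hs : ∀ x ∈ D, -x ∈ D) {f : ℝ → ℂ} (hP : InP D f)
    {u : V} (hu : u ∈ Sp D) {m : ℝ} (hm : ∀ t, ‖L (ch t) u‖ ≤ m) : ‖L f u‖ ≤ (f 0).re * m := by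
  refine norm_of_re (fun u hu m hm => ?_) hu hm
  have := pos_aux h0 hs hP hu hm
  rw [L_cj fun x hx => (pos_herm h0 hs hP).2 x (hu hx), Complex.add_conj] at this
  have h1 := (Complex.le_def.1 this).1
  simp only [Complex.zero_re, Complex.sub_re, Complex.re_ofReal_mul, Complex.ofReal_re] at h1
  linarith

lemma min_meas {D : Set ℝ} (hD : IsOpen D) (h0 : (0 : ℝ) ∈ D) (hs : ∀ x ∈ D, -x ∈ D)
    {f fp fm : ℝ → ℂ} (hR : InR D f) (hf : Meas D f) (hp : InP D fp) (hm : InP D fm)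
    (hd : ∀ x ∈ D, f x = fp x - fm x) (hn : (nrm D f : ℂ) = fp 0 + fm 0) :
    Meas D fp ∧ Meas D fm := by
  have h1 : Meas D fp := by
    refine main hD hD.measurableSet hR hf fun η hη v hv w hw hv1 h => ?_
    have e : L f v = L fp v - L fm v := by
      rw [L_congr hd hv, L_eq, L_eq, L_eq, ← Finset.sum_sub_distrib]
      exact Finset.sum_congr rfl fun x _ => by ring
    have a1 := pos_bound h0 hs hp ((Sp D).add_mem hv hw) h
    have a2 := pos_bound h0 hs hm hv hv1
    have a3 := congrArg Complex.re hn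
    have a4 := (Complex.le_def.1 (pos_herm h0 hs hm).1).1
    have a5 := Complex.re_le_norm (L fp (v + w))
    have a6 := (abs_le.1 (Complex.abs_re_le_norm (L fm v))).1
    rw [map_add] at a1 a5
    simp only [Complex.ofReal_re, Complex.add_re, Complex.zero_re] at a3 a4 a5
    rw [e, Complex.add_re, Complex.sub_re, a3]
    nlinarith
  refine ⟨h1, (h1.sub hf).congr ?_⟩
  filter_upwards [ae_restrict_mem hD.measurableSet] with x hx
  simp [hd x hx]

lemma cx_pos {g : V →ₗ[ℝ] ℝ} {a : ℝ} (ha : 0 ≤ a) (h : ∀ u, g u ≤ a * S Complex.re u)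
    (D : Set ℝ) : InP D (cx g) ∧ cx g 0 = a := by
  have key : ∀ p : V, (∀ t, 0 ≤ L (ch t) p) → 0 ≤ L (cx g) p := by
    intro p hp
    have k : ∀ c : ℂ, c.re ≤ 0 → (c * L (cx g) p).re ≤ 0 := by
      intro c hc
      have := h (c • p)
      rw [← cx_re, map_smul, smul_eq_mul] at this
      refine this.trans (mul_nonpos_of_nonneg_of_nonpos ha (S_le fun t => ?_))
      have h1 := Complex.le_def.1 (hp t)
      rw [map_smul, smul_eq_mul, Complex.mul_re, ← h1.2]
      have : 0 ≤ (L (ch t) p).re := h1.1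
      simp only [Complex.zero_im, mul_zero, sub_zero]
      nlinarith
    have k1 := k (-1) (by simp)
    have k2 := k Complex.I (by simp)
    have k3 := k (-Complex.I) (by simp)
    simp at k1 k2 k3
    exact Complex.le_def.2 ⟨k1, by simp; linarith⟩
  refine ⟨⟨⟨a, fun p _ m hm => norm_of_re (fun u _ m hm => ?_) (mem_univ' p) hm⟩,
    fun p _ hp => key p hp⟩, ?_⟩
  · rw [cx_re]
    exact (h u).trans (mul_le_mul_of_nonneg_left
      (S_le fun t => (Complex.re_le_norm _).trans (hm t)) ha)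
  · have k0 := key (Finsupp.single 0 1) fun t => by rw [L_single, ch_zero]; simp
    have k : ∀ c : ℝ, c * (cx g 0).re ≤ a * c := by
      intro c
      have := h (Finsupp.single 0 c)
      rw [← cx_re, L_single, Complex.re_ofReal_mul] at this
      refine this.trans (mul_le_mul_of_nonneg_left (S_le fun t => ?_) ha)
      rw [L_single, ch_zero]; simp
    rw [L_single, one_mul] at k0
    apply Complex.ext
    · rw [Complex.ofReal_re]; linarith [k 1, k (-1)]
    · rw [Complex.ofReal_im]; exact (Complex.le_def.1 k0).2.symm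

lemma decomp {D : Set ℝ} (h0 : (0 : ℝ) ∈ D) (hs : ∀ x ∈ D, -x ∈ D) {f : ℝ → ℂ} (hR : InR D f)
    (hH : Herm D f) : ∃ fp fm : ℝ → ℂ, InP D fp ∧ InP D fm ∧ (∀ x ∈ D, f x = fp x - fm x) ∧
      (nrm D f : ℂ) = fp 0 + fm 0 := by
  set M := nrm D f with hM
  have hf0 : |(f 0).re| ≤ M := by
    have := le_nrm hR (Finsupp.single_mem_supported ℂ (1 : ℂ) h0) (m := 1)
      (fun t => by rw [L_single, one_mul, norm_ch])
    rw [L_single, one_mul, mul_one] at this
    exact (Complex.abs_re_le_norm _).trans this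
  have ha : 0 ≤ (M + (f 0).re) / 2 := by linarith [(abs_le.1 hf0).1]
  have hb' : 0 ≤ (M - (f 0).re) / 2 := by linarith [(abs_le.1 hf0).2]
  have hh : ∀ c : ℝ, 0 < c → ∀ u, S Complex.re (c • u) = c * S Complex.re u :=
    S_hom fun c _ z => Complex.re_ofReal_mul c z
  have hadd := S_add Complex.re_le_norm (fun z w => (Complex.add_re z w).le)
  have hz : S Complex.re 0 = 0 := by simp [S]
  obtain ⟨g, hg1, hg2⟩ := hb (W := Sp D) (E := V × V)
    (((Sp D).subtype.prod (-(Sp D).subtype)).restrictScalars ℝ)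
    (fun u v h => Subtype.val_injective (congrArg Prod.fst h))
    (Complex.reLm.comp (((L f).comp (Sp D).subtype).restrictScalars ℝ))
    (fun u : V × V => (M + (f 0).re) / 2 * S Complex.re u.1 + (M - (f 0).re) / 2 * S Complex.re u.2)
    (fun c hc u => by rw [Prod.smul_fst, Prod.smul_snd, hh c hc, hh c hc]; ring)
    (fun u v => by
      rw [Prod.fst_add, Prod.snd_add]
      nlinarith [mul_le_mul_of_nonneg_left (hadd u.1 v.1) ha,
        mul_le_mul_of_nonneg_left (hadd u.2 v.2) hb'])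
    (fun w => by
      show (L f w.1).re ≤ (M + (f 0).re) / 2 * S Complex.re w.1 +
        (M - (f 0).re) / 2 * S Complex.re (-w.1)
      set s1 := S Complex.re w.1
      set s2 := S Complex.re (-w.1)
      have := le_nrm hR (p := w.1 + cj w.1 - Finsupp.single 0 ((s1 - s2 : ℝ) : ℂ))
        ((Sp D).sub_mem ((Sp D).add_mem w.2 (cj_mem hs w.2)) (Finsupp.single_mem_supported _ _ h0))
        (m := s1 + s2) (fun t => by
          have b1 : (L (ch t) w.1).re ≤ s1 := le_S Complex.re_le_norm w.1 t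
          have b2 : (L (ch t) (-w.1)).re ≤ s2 := le_S Complex.re_le_norm (-w.1) t
          rw [map_neg, Complex.neg_re] at b2
          rw [map_sub, map_add, ev_cj, Complex.add_conj, L_single, ch_zero, mul_one,
            ← Complex.ofReal_sub, Complex.norm_real, Real.norm_eq_abs, abs_le]
          constructor <;> linarith)
      rw [map_sub, map_add, L_cj fun x hx => hH x (w.2 hx), Complex.add_conj, L_single] at this
      have h2 := (Complex.re_le_norm _).trans this
      rw [Complex.sub_re, Complex.ofReal_re, Complex.re_ofReal_mul, ← hM] at h2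
      linarith)
  have p1 := cx_pos (g := g.comp (LinearMap.inl ℝ V V)) ha
    (fun u => by simpa [hz] using hg2 (u, 0)) D
  have p2 := cx_pos (g := g.comp (LinearMap.inr ℝ V V)) hb'
    (fun u => by simpa [hz] using hg2 (0, u)) D
  refine ⟨_, _, p1.1, p2.1, fun x hx => eq_of_re (g := fun x => _ - _) (fun u hu => ?_) hx, ?_⟩
  · have e : L (fun x => cx (g.comp (LinearMap.inl ℝ V V)) x - cx (g.comp (LinearMap.inr ℝ V V)) x) u
        = L (cx (g.comp (LinearMap.inl ℝ V V))) u - L (cx (g.comp (LinearMap.inr ℝ V V))) u := by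
      rw [L_eq, L_eq, L_eq, ← Finset.sum_sub_distrib]
      exact Finset.sum_congr rfl fun x _ => by ring
    rw [e, Complex.sub_re, cx_re, cx_re]
    refine (hg1 ⟨u, hu⟩).symm.trans ?_
    show g (u, -u) = g (u, 0) - g (0, u)
    rw [← map_sub]; simp
  · rw [p1.2, p2.2]; push_cast; ring

lemma dom_open (A : EReal) : IsOpen (dom A) :=
  isOpen_lt (continuous_coe_real_ereal.comp continuous_abs) continuous_const

lemma dom_zero {A : EReal} (h : 0 < A) : (0 : ℝ) ∈ dom A := by simpa [dom] using h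

lemma dom_neg (A : EReal) : ∀ x ∈ dom A, -x ∈ dom A := fun x hx => by simpa [dom] using hx

end Pool.Agent.KS6_69.AP
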