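import Pool.Agent.KS6_69.AP.AP2

/-! Norm-additive sums and norm-preserving extensions of measurable elements. -/

set_option autoImplicit false

namespace Pool.Agent.KS6_69.AP

open MeasureTheory Set Filter Topology
open scoped ComplexConjugate ComplexOrder

lemma L_hasSum {ι : Type} {D : Set ℝ} {f : ℝ → ℂ} {g : ι → ℝ → ℂ}
    (h : ∀ x ∈ D, HasSum (fun i => g i x) (f x)) {v : V} (hv : v ∈ Sp D) :
    HasSum (fun i => L (g i) v) (L f v) := by
  simp only [L_eq]
  exact hasSum_sum fun x hx => (h x (hv hx)).mul_left (v x)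

/-- If `f` is measurable and is a norm-additive sum of the `g i`, then all `g i` are measurable. -/
theorem add_meas {ι : Type} {D : Set ℝ} (hD : IsOpen D) {f : ℝ → ℂ} (hR : InR D f)
    (hf : Meas D f) (E : ι → Set ℝ) (hE : ∀ i, MeasurableSet (E i)) (hsub : ∀ i, D ⊆ E i)
    (g : ι → ℝ → ℂ) (hg : ∀ i, InR (E i) (g i)) (hsum : ∀ x ∈ D, HasSum (fun i => g i x) (f x))
    (N : ℝ) (hN : HasSum (fun i => nrm (E i) (g i)) N) (hNf : N ≤ nrm D f) (i : ι) :
    Meas (E i) (g i) := by
  classical
  refine main hD (hE i) hR hf fun η hη v hv w hw hv1 h => ?_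
  have h1 := (L_hasSum hsum hv)
  have h2 : HasSum (fun j => (L (g j) v).re) (L f v).re := Complex.hasSum_re h1
  have h3 := h2.add (hasSum_ite_eq i (L (g i) w).re)
  have h4 : HasSum (fun j => nrm (E j) (g j) * (1 + η)) (N * (1 + η)) := hN.mul_right _
  have hmem : ∀ j, v ∈ Sp (E j) := fun j => Finsupp.supported_mono (hsub j) hv
  have h5 : ∀ j, (L (g j) v).re + (if j = i then (L (g i) w).re else 0) ≤
      nrm (E j) (g j) * (1 + η) := by
    intro j
    have hn := nrm_nonneg (hg j)
    split_ifs with hj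
    · subst hj
      have a1 := le_nrm (hg j) ((Sp (E j)).add_mem (hmem j) hw) h
      have a2 := Complex.re_le_norm (L (g j) (v + w))
      rw [map_add, Complex.add_re] at a2
      rw [map_add] at a1
      linarith
    · have a1 := le_nrm (hg j) (hmem j) hv1
      have a2 := Complex.re_le_norm (L (g j) v)
      rw [add_zero]
      nlinarith
  have h6 := hasSum_le h5 h3 h4
  rw [Complex.add_re]
  exact h6.trans (mul_le_mul_of_nonneg_right hNf (by linarith))

lemma inR_neg {D : Set ℝ} {f : ℝ → ℂ} (h : InR D f) : InR D (fun x => -f x) := by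
  obtain ⟨C, hC⟩ := h
  refine ⟨C, fun p hp m hm => ?_⟩
  have : Phi (fun x => -f x) p = -Phi f p := by
    simp [Phi]
  rw [this, norm_neg]
  exact hC p hp m hm

lemma nrm_neg (D : Set ℝ) (f : ℝ → ℂ) : nrm D (fun x => -f x) = nrm D f := by
  have : ∀ p, Phi (fun x => -f x) p = -Phi f p := by
    intro p
    simp [Phi]
  simp only [nrm, this, norm_neg]

lemma nrm_pos {D : Set ℝ} (h0 : (0 : ℝ) ∈ D) (hs : ∀ x ∈ D, -x ∈ D) {f : ℝ → ℂ}
    (hP : InP D f) : nrm D f = (f 0).re ∧ ((f 0).re : ℂ) = f 0 := by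
  have h1 := (pos_herm h0 hs hP).1
  have h2 := Complex.le_def.1 h1
  refine ⟨le_antisymm ?_ ?_, ?_⟩
  · refine nrm_le fun p hp hp1 => ?_
    have := pos_bound h0 hs hP hp hp1
    linarith
  · have := le_nrm hP.1 (Finsupp.single_mem_supported ℂ (1 : ℂ) h0) (m := 1)
      (fun t => by rw [L_single, one_mul, norm_ch])
    rw [L_single, one_mul, mul_one] at this
    exact (Complex.re_le_norm _).trans this
  · apply Complex.ext
    · simp
    · simpa using h2.2

/-- The Jordan decomposition with positive definite functions on the line. -/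
theorem decomp_univ {D : Set ℝ} (h0 : (0 : ℝ) ∈ D) (hs : ∀ x ∈ D, -x ∈ D) {f : ℝ → ℂ}
    (hR : InR D f) (hH : Herm D f) : ∃ fp fm : ℝ → ℂ, InP univ fp ∧ InP univ fm ∧
      (∀ x ∈ D, f x = fp x - fm x) ∧ (nrm D f : ℂ) = fp 0 + fm 0 := by
  set M := nrm D f with hM
  have hf0 : |(f 0).re| ≤ M := by
    have := le_nrm hR (Finsupp.single_mem_supported ℂ (1 : ℂ) h0) (m := 1)
      (fun t => by rw [L_single, one_mul, norm_ch])
    rw [L_single, one_mul, mul_one] at this
    exact (Complex.abs_re_le_norm _).trans this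
  have ha : 0 ≤ (M + (f 0).re) / 2 := by linarith [(abs_le.1 hf0).1]
  have hb' : 0 ≤ (M - (f 0).re) / 2 := by linarith [(abs_le.1 hf0).2]
  have hh : ∀ c : ℝ, 0 < c → ∀ u, S Complex.re (c • u) = c * S Complex.re u :=
    S_hom fun c _ z => Complex.re_ofReal_mul c z
  have hadd := S_add Complex.re_le_norm (fun z w => (Complex.add_re z w).le)
  have hz : S Complex.re 0 = 0 := by simp [S]
  obtain ⟨g, hg1, hg2⟩ := hb (W := Sp D) (E := V × V)
    (((Sp D).subtype.prod (-(Sp D).subtype)).restrictScalars ℝ)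
    (fun u v h => Subtype.val_injective (congrArg Prod.fst h))
    (Complex.reLm.comp (((L f).comp (Sp D).subtype).restrictScalars ℝ))
    (fun u : V × V => (M + (f 0).re) / 2 * S Complex.re u.1 + (M - (f 0).re) / 2 * S Complex.re u.2)
    (fun c hc u => by rw [Prod.smul_fst, Prod.smul_snd, hh c hc, hh c hc]; ring)
    (fun u v => by
      rw [Prod.fst_add, Prod.snd_add]
      nlinarith [mul_le_mul_of_nonneg_left (hadd u.1 v.1) ha,
        mul_le_mul_of_nonneg_left (hadd u.2 v.2) hb'])
    (fun w => by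
      show (L f w.1).re ≤ (M + (f 0).re) / 2 * S Complex.re w.1 +
        (M - (f 0).re) / 2 * S Complex.re (-w.1)
      set s1 := S Complex.re w.1
      set s2 := S Complex.re (-w.1)
      have := le_nrm hR (p := w.1 + cj w.1 - Finsupp.single 0 ((s1 - s2 : ℝ) : ℂ))
        ((Sp D).sub_mem ((Sp D).add_mem w.2 (cj_mem hs w.2)) (Finsupp.single_mem_supported _ _ h0))
        (m := s1 + s2) (fun t => by
          have b1 : (L (ch t) w.1).re ≤ s1 := le_S Complex.re_le_norm w.1 t
          have b2 : (L (ch t) (-w.1)).re ≤ s2 := le_S Complex.re_le_norm (-w.1) t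
          rw [map_neg, Complex.neg_re] at b2
          rw [map_sub, map_add, ev_cj, Complex.add_conj, L_single, ch_zero, mul_one,
            ← Complex.ofReal_sub, Complex.norm_real, Real.norm_eq_abs, abs_le]
          constructor <;> linarith)
      rw [map_sub, map_add, L_cj fun x hx => hH x (w.2 hx), Complex.add_conj, L_single] at this
      have h2 := (Complex.re_le_norm _).trans this
      rw [Complex.sub_re, Complex.ofReal_re, Complex.re_ofReal_mul, ← hM] at h2
      linarith)
  have p1 := cx_pos (g := g.comp (LinearMap.inl ℝ V V)) ha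
    (fun u => by simpa [hz] using hg2 (u, 0)) univ
  have p2 := cx_pos (g := g.comp (LinearMap.inr ℝ V V)) hb'
    (fun u => by simpa [hz] using hg2 (0, u)) univ
  refine ⟨_, _, p1.1, p2.1, fun x hx => eq_of_re (g := fun x => _ - _) (fun u hu => ?_) hx, ?_⟩
  · have e : L (fun x => cx (g.comp (LinearMap.inl ℝ V V)) x - cx (g.comp (LinearMap.inr ℝ V V)) x) u
        = L (cx (g.comp (LinearMap.inl ℝ V V))) u - L (cx (g.comp (LinearMap.inr ℝ V V))) u := by
      rw [L_eq, L_eq, L_eq, ← Finset.sum_sub_distrib]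
      exact Finset.sum_congr rfl fun x _ => by ring
    rw [e, Complex.sub_re, cx_re, cx_re]
    refine (hg1 ⟨u, hu⟩).symm.trans ?_
    show g (u, -u) = g (u, 0) - g (0, u)
    rw [← map_sub]; simp
  · rw [p1.2, p2.2]; push_cast; ring

theorem jordan_meas {D D₁ D₂ : Set ℝ} (hD : IsOpen D) (h0 : (0 : ℝ) ∈ D)
    (hD₁ : MeasurableSet D₁) (hD₂ : MeasurableSet D₂) (h₁ : D ⊆ D₁) (h₂ : D ⊆ D₂)
    (hs₁ : ∀ x ∈ D₁, -x ∈ D₁) (hs₂ : ∀ x ∈ D₂, -x ∈ D₂) {f fp fm : ℝ → ℂ} (hR : InR D f)
    (hf : Meas D f) (hp : InP D₁ fp) (hm : InP D₂ fm) (hd : ∀ x ∈ D, f x = fp x - fm x)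
    (hn : fp 0 + fm 0 = (nrm D f : ℂ)) : Meas D₁ fp ∧ Meas D₂ fm := by
  have np := nrm_pos (h₁ h0) hs₁ hp
  have nm := nrm_pos (h₂ h0) hs₂ hm
  have hn' : nrm D₁ fp + nrm D₂ fm = nrm D f := by
    rw [np.1, nm.1, ← Complex.add_re, hn, Complex.ofReal_re]
  have key := add_meas (ι := Bool) hD hR hf (fun i => if i then D₁ else D₂)
    (fun i => by cases i <;> simpa) (fun i => by cases i <;> simpa)
    (fun i => if i then fp else fun x => -fm x)
    (fun i => by
      cases i
      · simpa using inR_neg hm.1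
      · simpa using hp.1)
    (fun x hx => by
      have := hasSum_fintype (fun i : Bool => (if i then fp else fun x => -fm x) x)
      rw [Fintype.sum_bool] at this
      have e : f x = (if (true : Bool) then fp else fun x => -fm x) x +
          (if (false : Bool) then fp else fun x => -fm x) x := by
        simp [hd x hx, sub_eq_add_neg]
      rw [e]
      exact this)
    (nrm D f)
    (by
      have := hasSum_fintype (fun i : Bool => nrm (if i then D₁ else D₂)
        (if i then fp else fun x => -fm x))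
      rw [Fintype.sum_bool] at this
      have e : nrm D f = nrm (if (true : Bool) then D₁ else D₂)
          (if (true : Bool) then fp else fun x => -fm x) +
          nrm (if (false : Bool) then D₁ else D₂)
          (if (false : Bool) then fp else fun x => -fm x) := by
        simp [nrm_neg, hn']
      rw [e]
      exact this) le_rfl
  refine ⟨by simpa using key true, ?_⟩
  have h := key false
  have h' : Meas D₂ (fun x => -fm x) := by simpa using h
  have := h'.neg
  unfold Meas
  refine this.congr (Eventually.of_forall fun x => ?_)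
  simp

/-- A norm-preserving extension to the line. -/
theorem extend_univ {D : Set ℝ} {f : ℝ → ℂ} (hR : InR D f) :
    ∃ F : ℝ → ℂ, InR univ F ∧ nrm univ F = nrm D f ∧ ∀ x ∈ D, F x = f x := by
  obtain ⟨F, h1, h2⟩ := extend hR
  have hF : InR univ F := ⟨nrm D f, fun p _ m hm => h2 p m hm⟩
  refine ⟨F, hF, le_antisymm ?_ ?_, h1⟩
  · exact nrm_le fun p _ hp => by simpa using h2 p 1 hp
  · refine nrm_le fun p hp hp1 => ?_
    have := le_nrm hF (mem_univ' p) hp1
    rwa [L_congr h1 hp, mul_one] at this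

theorem ext_meas' {D D' : Set ℝ} (hD : IsOpen D) (hD' : MeasurableSet D') (hsub : D ⊆ D')
    {f F : ℝ → ℂ} (hR : InR D f) (hf : Meas D f) (hF : InR D' F) (hn : nrm D' F ≤ nrm D f)
    (h : ∀ x ∈ D, F x = f x) : Meas D' F :=
  add_meas (ι := Unit) hD hR hf (fun _ => D') (fun _ => hD') (fun _ => hsub) (fun _ => F)
    (fun _ => hF) (fun x hx => by
      rw [← h x hx]
      have := hasSum_fintype (fun _ : Unit => F x)
      simpa using this) (nrm D' F) (by
      have := hasSum_fintype (fun _ : Unit => nrm D' F)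
      simpa using this) hn ()

lemma inP_mono {D : Set ℝ} {f : ℝ → ℂ} (h : InP univ f) : InP D f := by
  obtain ⟨⟨C, hC⟩, h2⟩ := h
  exact ⟨⟨C, fun p _ m hm => hC p (fun _ _ => trivial) m hm⟩,
    fun p _ hp => h2 p (fun _ _ => trivial) hp⟩

end Pool.Agent.KS6_69.AP
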